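import Pool.Agent.U609.FA.Nondisc
import Pool.Agent.U609.FA.Disc4

set_option autoImplicit false

/-!
# The second dual of the Fourier algebra of an infinite locally compact group is never semisimple

Definitions used by the statement (files `Pool/Agent/U609/FA/Defs.lean` and
`Pool/Agent/H434R3/Arens.lean`):

* `coeff ξ η s = ∫ ξ(s⁻¹ t) conj (η(t)) dm(t) = ⟨λ(s) ξ, η⟩`, for `ξ, η ∈ L²(G)`, `m` the left Haar
  measure of `G`;
* `FourierAlg G A`: the normed algebra `A` is the Fourier algebra `A(G)`: its elements are the
  coefficient functions `⟨λ(·) ξ, η⟩`, the operations are pointwise and the norm is the infimum of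
  `‖ξ‖ ‖η‖` over all such representations of the function;
* `Bidual A`: the second dual `A''` with the first Arens product;
* `InRad Φ`: `Φ` lies in the Jacobson radical (of the unitization; `A''` need not be unital).
-/

namespace Pool.Agent.Results.MP_129c4a_an.NeverSemisimple

open H434R3.Arens Pool.Agent.U609.FA Filter
open scoped Topology

/-- **Let `G` be an infinite locally compact (Hausdorff) group and `A = A(G)` its Fourier algebra.
Then the second dual of `A` with the first Arens product is not semisimple: there is `Φ ≠ 0` in the
radical of `(A'', □)`, and even with `Φ □ Ψ □ Φ = 0` for all `Ψ ∈ A''`.** -/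
theorem result (G : Type*) [Group G] [TopologicalSpace G] [IsTopologicalGroup G]
    [LocallyCompactSpace G] [T2Space G] [MeasurableSpace G] [BorelSpace G] [Infinite G]
    (A : Type*) [NonUnitalNormedRing A] [NormedSpace ℂ A] [IsScalarTower ℂ A A]
    [SMulCommClass ℂ A A] (F : FourierAlg G A) :
    ∃ Φ : Bidual A, Φ ≠ 0 ∧ InRad Φ ∧ ∀ Ψ : Bidual A, Φ * Ψ * Φ = 0 := by
  by_cases h : (𝓝[≠] (1 : G)).NeBot
  · exact nondiscrete F
  · have h1 : IsOpen ({1} : Set G) := by
      rw [isOpen_singleton_iff_punctured_nhds]
      exact not_neBot.1 h
    have h2 : DiscreteTopology G := discreteTopology_of_isOpen_singleton_one h1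
    exact discrete F

end Pool.Agent.Results.MP_129c4a_an.NeverSemisimple
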